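import Pool.Agent.H39Z.SSS.Spec

/-! Algebraic and measure-theoretic lemmas for the lattice norm bound. -/

set_option autoImplicit false

namespace Pool.Agent.H826Z.SSS

open MeasureTheory Polynomial Set Matrix Pool.Agent.H39Z.SSS

lemma half {ι σ R : Type*} [Fintype ι] [DecidableEq ι] [Fintype σ] [CommRing R]
    (φ ψ : ι → σ → R) :
    ∑ s : ι → σ, (Matrix.of fun a j : ι => φ a (s j)).det * ∏ j, ψ j (s j)
      = (Matrix.of fun a b : ι => ∑ p : σ, φ a p * ψ b p).det := by
  simp only [Matrix.det_apply', Matrix.of_apply]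
  simp only [Finset.sum_mul]
  rw [Finset.sum_comm]
  refine Finset.sum_congr rfl fun τ _ => ?_
  rw [Finset.prod_univ_sum, Fintype.piFinset_univ, Finset.mul_sum]
  refine Finset.sum_congr rfl fun s _ => ?_
  rw [Finset.prod_mul_distrib]
  ring

/-- the Andréief identity -/
lemma andreief {ι σ R : Type*} [Fintype ι] [DecidableEq ι] [Fintype σ] [CommRing R]
    (φ ψ : ι → σ → R) (h : σ → R) :
    ∑ s : ι → σ, (Matrix.of fun a j : ι => φ a (s j)).det *
        (Matrix.of fun a j : ι => ψ a (s j)).det * ∏ j, h (s j)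
      = ((Fintype.card ι).factorial : R) *
        (Matrix.of fun a b : ι => ∑ p : σ, φ a p * (ψ b p * h p)).det := by
  have key : ∀ τ : Equiv.Perm ι,
      ∑ s : ι → σ, (Matrix.of fun a j : ι => φ a (s j)).det *
        (((Equiv.Perm.sign τ : ℤ) : R) * ∏ j, ψ (τ j) (s j)) * ∏ j, h (s j)
      = (Matrix.of fun a b : ι => ∑ p : σ, φ a p * (ψ b p * h p)).det := by
    intro τ
    rw [← half φ (fun b p => ψ b p * h p)]
    rw [← Equiv.sum_comp (Equiv.arrowCongr τ.symm (Equiv.refl σ))]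
    refine Finset.sum_congr rfl fun s _ => ?_
    have e0 : ∀ j, (Equiv.arrowCongr τ.symm (Equiv.refl σ)) s j = s (τ j) := fun j => rfl
    simp only [e0]
    have e1 : (Matrix.of fun a j : ι => φ a (s (τ j))).det
        = ((Equiv.Perm.sign τ : ℤ) : R) * (Matrix.of fun a j : ι => φ a (s j)).det := by
      have := Matrix.det_permute' τ (Matrix.of fun a j : ι => φ a (s j))
      rw [← this]
      rfl
    have e2 : ∏ j, ψ (τ j) (s (τ j)) = ∏ j, ψ j (s j) :=
      Equiv.prod_comp τ (fun j => ψ j (s j))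
    have e3 : ∏ j, h (s (τ j)) = ∏ j, h (s j) := Equiv.prod_comp τ (fun j => h (s j))
    rw [e1, e2, e3, Finset.prod_mul_distrib]
    have e4 : (((Equiv.Perm.sign τ : ℤ) : R)) * (((Equiv.Perm.sign τ : ℤ) : R)) = 1 := by
      rw [← Int.cast_mul, ← Units.val_mul, Int.units_mul_self]
      simp
    linear_combination
      ((Matrix.of fun a j : ι => φ a (s j)).det * (∏ j, ψ j (s j)) * ∏ j, h (s j)) * e4
  have expand : ∀ s : ι → σ, (Matrix.of fun a j : ι => φ a (s j)).det *
        (Matrix.of fun a j : ι => ψ a (s j)).det * ∏ j, h (s j)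
      = ∑ τ : Equiv.Perm ι, (Matrix.of fun a j : ι => φ a (s j)).det *
        (((Equiv.Perm.sign τ : ℤ) : R) * ∏ j, ψ (τ j) (s j)) * ∏ j, h (s j) := by
    intro s
    rw [Matrix.det_apply' (Matrix.of fun a j : ι => ψ a (s j)), Finset.mul_sum, Finset.sum_mul]
    rfl
  rw [Finset.sum_congr rfl fun s _ => expand s, Finset.sum_comm,
    Finset.sum_congr rfl fun τ _ => key τ,
    Finset.sum_const, Finset.card_univ, Fintype.card_perm, nsmul_eq_mul]

/-- a functional on polynomials of degree below `n` is a combination of evaluations -/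
lemma interp {n : ℕ} (y : Fin n → ℝ) (hy : Function.Injective y) (φ : Fin n → ℝ) :
    ∃ c : Fin n → ℝ, ∀ p : ℝ[X], p.natDegree < n →
      ∑ j : Fin n, p.coeff j * φ j = ∑ l, c l * p.eval (y l) := by
  have hd : (Matrix.vandermonde y).det ≠ 0 := Matrix.det_vandermonde_ne_zero_iff.2 hy
  have hu : IsUnit (Matrix.vandermonde y).det := isUnit_iff_ne_zero.2 hd
  refine ⟨φ ᵥ* (Matrix.vandermonde y)⁻¹, fun p hp => ?_⟩
  set c := φ ᵥ* (Matrix.vandermonde y)⁻¹ with hc
  have h1 : c ᵥ* Matrix.vandermonde y = φ := by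
    rw [hc, Matrix.vecMul_vecMul, Matrix.nonsing_inv_mul _ hu, Matrix.vecMul_one]
  have h2 : ∀ j : Fin n, φ j = ∑ l, c l * y l ^ (j : ℕ) := by
    intro j
    rw [← congrFun h1 j]
    simp [Matrix.vecMul, dotProduct, Matrix.vandermonde_apply]
  simp only [h2, eval_eq_sum_range' hp, Finset.sum_range, Finset.mul_sum]
  rw [Finset.sum_comm]
  refine Finset.sum_congr rfl fun l _ => Finset.sum_congr rfl fun j _ => by ring

lemma eB_apply {n : ℕ} (y φ c : Fin n → ℝ)
    (hc : ∀ p : ℝ[X], p.natDegree < n →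
      ∑ j : Fin n, p.coeff j * φ j = ∑ l, c l * p.eval (y l)) (l : Fin n) :
    (eB y *ᵥ φ) l = c l * ∏ i ∈ Finset.univ.erase l, (y l - y i) := by
  have hdeg : (∏ i ∈ Finset.univ.erase l, (X - C (y i)) : ℝ[X]).natDegree < n := by
    rw [natDegree_prod_of_monic _ _ fun i _ => monic_X_sub_C _]
    simp only [natDegree_X_sub_C, Finset.sum_const, smul_eq_mul, mul_one]
    rw [Finset.card_erase_of_mem (Finset.mem_univ l), Finset.card_univ, Fintype.card_fin]
    have := l.2
    omega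
  have h := hc _ hdeg
  have h0 : (eB y *ᵥ φ) l =
      ∑ j : Fin n, (∏ i ∈ Finset.univ.erase l, (X - C (y i)) : ℝ[X]).coeff j * φ j := by
    simp [eB, Matrix.mulVec, dotProduct]
  rw [h0, h, Finset.sum_eq_single l]
  · simp [eval_prod]
  · intro m _ hm
    rw [eval_prod, Finset.prod_eq_zero (i := m) (Finset.mem_erase.2 ⟨hm, Finset.mem_univ _⟩)]
    · simp
    · simp
  · simp

/-- one term of the Andréief expansion is large -/
lemma exists_term {n k : ℕ} (y h : Fin n → ℝ) (hn : 0 < n)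
    (hdet : 1 ≤ |(Matrix.of fun i j : Fin k => ∑ l, y l ^ (i : ℕ) * (y l ^ (j : ℕ) * h l)).det|) :
    ∃ f : Fin k → Fin n,
      1 ≤ (n : ℝ) ^ k * ((Matrix.vandermonde (y ∘ f)).det ^ 2 * ∏ j, |h (f j)|) := by
  by_contra hcon
  push Not at hcon
  have hA := andreief (fun (a : Fin k) (p : Fin n) => y p ^ (a : ℕ))
    (fun (a : Fin k) (p : Fin n) => y p ^ (a : ℕ)) h
  have hV : ∀ f : Fin k → Fin n, (Matrix.of fun a j : Fin k => y (f j) ^ (a : ℕ)).det =
      (Matrix.vandermonde (y ∘ f)).det := by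
    intro f
    rw [← Matrix.det_transpose]
    rfl
  simp only [hV] at hA
  have hnk : (0 : ℝ) < (n : ℝ) ^ k := by positivity
  have : Nonempty (Fin n) := ⟨⟨0, hn⟩⟩
  have h1 : |∑ s : Fin k → Fin n, (Matrix.vandermonde (y ∘ s)).det *
      (Matrix.vandermonde (y ∘ s)).det * ∏ j, h (s j)| < 1 := by
    refine lt_of_le_of_lt (Finset.abs_sum_le_sum_abs _ _) ?_
    have h2 : ∑ s : Fin k → Fin n, |(Matrix.vandermonde (y ∘ s)).det *
        (Matrix.vandermonde (y ∘ s)).det * ∏ j, h (s j)| <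
        ∑ _s : Fin k → Fin n, 1 / (n : ℝ) ^ k := by
      refine Finset.sum_lt_sum_of_nonempty Finset.univ_nonempty fun s _ => ?_
      rw [lt_div_iff₀ hnk, abs_mul, Finset.abs_prod, ← sq, abs_of_nonneg (sq_nonneg _), mul_comm]
      exact hcon s
    refine h2.trans_le (le_of_eq ?_)
    rw [Finset.sum_const, Finset.card_univ, Fintype.card_fun, Fintype.card_fin, Fintype.card_fin,
      nsmul_eq_mul]
    push_cast
    field_simp
  rw [hA, abs_mul] at h1
  have h3 : (1 : ℝ) ≤ |(((Fintype.card (Fin k)).factorial : ℕ) : ℝ)| := by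
    rw [Nat.abs_cast]
    exact_mod_cast Nat.factorial_pos _
  nlinarith

/-- points in the cells where the product is at least one -/
lemma exists_cells (F : ℝ → ℝ) (d : ℕ) (h0 : ∀ᵐ t ∂(volume.restrict (Ioc (0 : ℝ) 1)), F t ≠ 0)
    (hi : Integrable (fun t => Real.log |F t|) (volume.restrict (Ioc (0 : ℝ) 1)))
    (hp : 0 ≤ ∫ t in Ioc (0 : ℝ) 1, Real.log |F t|) :
    ∃ s : Fin d → ℝ, (∀ j : Fin d, s j ∈ Icc (((j : ℕ) : ℝ) / d) ((((j : ℕ) : ℝ) + 1) / d)) ∧
      1 ≤ |∏ j, F (s j)| := by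
  rcases Nat.eq_zero_or_pos d with rfl | hd
  · exact ⟨fun j => j.elim0, fun j => j.elim0, by simp⟩
  have hdR : (0 : ℝ) < d := by exact_mod_cast hd
  set a : ℕ → ℝ := fun j => (j : ℝ) / d with ha
  have hlt : ∀ j : ℕ, a j < a (j + 1) := by
    intro j
    simp only [ha]
    push_cast
    exact div_lt_div_of_pos_right (by linarith) hdR
  have hsub : ∀ j, j < d → Ioc (a j) (a (j + 1)) ⊆ Ioc (0 : ℝ) 1 := by
    intro j hj
    refine Ioc_subset_Ioc (by simp only [ha]; positivity) ?_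
    simp only [ha]
    rw [div_le_one hdR]
    exact_mod_cast hj
  have hcell : ∀ j : Fin d, ∃ s ∈ Ioc (a j) (a (j + 1)), F s ≠ 0 ∧
      d * ∫ t in Ioc (a j) (a (j + 1)), Real.log |F t| ≤ Real.log |F s| := by
    intro j
    have hle : volume.restrict (Ioc (a j) (a (j + 1))) ≤ volume.restrict (Ioc (0 : ℝ) 1) :=
      Measure.restrict_mono (hsub j j.2) le_rfl
    have hμ : volume.restrict (Ioc (a j) (a (j + 1))) ≠ 0 := by
      rw [Ne, Measure.restrict_eq_zero, Real.volume_Ioc, ENNReal.ofReal_eq_zero, not_le]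
      linarith [hlt j]
    have hN : volume.restrict (Ioc (a j) (a (j + 1)))
        {t | ¬ (t ∈ Ioc (a j) (a (j + 1)) ∧ F t ≠ 0)} = 0 := by
      rw [← ae_iff]
      exact (ae_restrict_mem measurableSet_Ioc).and (ae_mono hle h0)
    obtain ⟨s, hs, hs'⟩ := exists_notMem_null_average_le hμ (hi.mono_measure hle) hN
    simp only [mem_ofPred_eq, not_not] at hs
    refine ⟨s, hs.1, hs.2, le_trans (le_of_eq ?_) hs'⟩
    rw [average_eq, smul_eq_mul]
    congr 1
    rw [measureReal_restrict_apply_univ, Real.volume_real_Ioc_of_le (hlt j).le]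
    simp only [ha]
    push_cast
    field_simp
    ring
  choose s hs hF hlog using hcell
  refine ⟨s, fun j => ?_, ?_⟩
  · have := Ioc_subset_Icc_self (hs j)
    simpa [ha] using this
  · have hsum : ∑ j : Fin d, ∫ t in Ioc (a j) (a (j + 1)), Real.log |F t| =
        ∫ t in Ioc (0 : ℝ) 1, Real.log |F t| := by
      have h1 := intervalIntegral.sum_integral_adjacent_intervals (f := fun t => Real.log |F t|)
        (μ := volume) (a := a) (n := d) (fun j hj => by
          rw [intervalIntegrable_iff_integrableOn_Ioc_of_le (hlt j).le]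
          exact hi.mono_measure (Measure.restrict_mono (hsub j hj) le_rfl))
      have e0 : a 0 = 0 := by simp [ha]
      have e1 : a d = 1 := by simp only [ha]; field_simp
      rw [e0, e1, intervalIntegral.integral_of_le zero_le_one, Finset.sum_range] at h1
      rw [← h1]
      exact Finset.sum_congr rfl fun j _ => (intervalIntegral.integral_of_le (hlt j).le).symm
    have h2 : 0 ≤ ∑ j : Fin d, Real.log |F (s j)| := by
      refine le_trans ?_ (Finset.sum_le_sum fun j _ => hlog j)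
      rw [← Finset.mul_sum, hsum]
      positivity
    rw [← Real.log_prod (fun j _ => abs_ne_zero.2 (hF j)), ← Finset.abs_prod] at h2
    have h3 : 0 < |∏ j, F (s j)| := abs_pos.2 (Finset.prod_ne_zero_iff.2 fun j _ => hF j)
    by_contra hcon
    exact absurd h2 (not_le.2 (Real.log_neg h3 (not_le.1 hcon)))

lemma log_le_S {δ t : ℝ} (ht : t ≠ 0) : Real.log |t| ≤ S δ t := by
  unfold S
  have h1 : Real.log (t ^ 2) ≤ Real.log (t ^ 2 + δ ^ 2) :=
    Real.log_le_log (by positivity) (by nlinarith [sq_nonneg δ])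
  rw [Real.log_pow] at h1
  rw [Real.log_abs]
  push_cast at h1
  linarith

lemma S_le_log {δ t σ : ℝ} (hσ : 0 < σ) (ht : σ ≤ |t|) :
    S δ t ≤ Real.log |t| + δ ^ 2 / σ ^ 2 / 2 := by
  unfold S
  have ht0 : t ≠ 0 := by
    rintro rfl
    simp at ht
    linarith
  have ht2 : 0 < t ^ 2 := by positivity
  have h1 : t ^ 2 + δ ^ 2 = t ^ 2 * (1 + δ ^ 2 / t ^ 2) := by field_simp
  have h2 : Real.log (1 + δ ^ 2 / t ^ 2) ≤ δ ^ 2 / t ^ 2 := by
    have := Real.log_le_sub_one_of_pos (x := 1 + δ ^ 2 / t ^ 2) (by positivity)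
    linarith
  have h3 : δ ^ 2 / t ^ 2 ≤ δ ^ 2 / σ ^ 2 := by
    refine div_le_div_of_nonneg_left (sq_nonneg _) (by positivity) ?_
    rw [← sq_abs t]
    exact pow_le_pow_left₀ hσ.le ht 2
  rw [h1, Real.log_mul ht2.ne' (by positivity), Real.log_pow, Real.log_abs]
  push_cast
  linarith

lemma S_zero {δ : ℝ} : S δ 0 = Real.log δ := by
  unfold S
  simp

lemma S_neg (δ t : ℝ) : S δ (-t) = S δ t := by
  unfold S
  simp

lemma continuous_S {δ : ℝ} (hδ : 0 < δ) : Continuous (S δ) := by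
  unfold S
  refine Continuous.div_const (Continuous.log (by fun_prop) fun t => ?_) _
  positivity

lemma S_le {δ t B : ℝ} (hδ : 0 < δ) (hδ1 : δ ≤ 1) (ht : |t| ≤ B) :
    S δ t ≤ Real.log (B ^ 2 + 1) / 2 := by
  unfold S
  have h1 : t ^ 2 ≤ B ^ 2 := by
    rw [← sq_abs t]
    exact pow_le_pow_left₀ (abs_nonneg _) ht 2
  have h2 : δ ^ 2 ≤ 1 := by nlinarith
  have := Real.log_le_log (x := t ^ 2 + δ ^ 2) (y := B ^ 2 + 1) (by positivity) (by linarith)
  linarith

lemma K_real (δ a b : ℝ) : K δ (a : ℂ) (b : ℂ) = S δ (a - b) := by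
  unfold K S
  simp

end Pool.Agent.H826Z.SSS
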