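import Pool.Agent.H826Z.SSS.NormA

/-! The lattice norm bound `S_NORM`. -/

set_option autoImplicit false

namespace Pool.Agent.H826Z.SSS

open MeasureTheory Polynomial Set Matrix Pool.Agent.H39Z.SSS

theorem norm (hH : S_HANK) (hR : S_RS) (hK : S_KEY) (hS : S_SERRE) (hV : S_VAND) (hT : S_T) :
    S_NORM := by
  intro B α q hα hα1 hB hq hqB hA
  have hmono : Monotone q := fun s t hst => by
    have := hq s t hst
    nlinarith
  have hmeas : Measurable q := hmono.measurable
  set L : ℝ := Real.log (B ^ 2 + 1) with hL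
  set C₀ : ℝ := 5 * L / 2 + 1 / α ^ 2 with hC₀
  refine ⟨Real.exp (-C₀ - 1), Real.exp_pos _, fun n hn φ hφ => ?_⟩
  by_contra hcon
  push Not at hcon
  have hnR : (1 : ℝ) ≤ n := by exact_mod_cast hn
  have hn0 : (0 : ℝ) < n := by linarith
  have hlogn : 0 ≤ Real.log n := Real.log_nonneg hnR
  set y : Fin n → ℝ := fun i => q ((((i : ℕ) : ℝ) + 1) / n) with hy
  set δ : ℝ := 1 / (n : ℝ) ^ 2 with hδ
  have hδ0 : 0 < δ := by positivity
  have hδ1 : δ ≤ 1 := by
    rw [hδ, div_le_one (by positivity)]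
    nlinarith
  have hlogδ : Real.log δ = -(2 * Real.log n) := by
    rw [hδ, one_div, Real.log_inv, Real.log_pow]
    push_cast
    ring
  set U : ℝ → ℝ := fun x => ∫ t in Ioc (0 : ℝ) 1, S δ (q t - x) with hU
  set V : ℝ := Real.log ((B ^ 2 + δ ^ 2) / δ ^ 2) with hVd
  have hVle : V ≤ L + 4 * Real.log n := by
    rw [hVd, Real.log_div (by positivity) (by positivity), Real.log_pow, hlogδ]
    have : Real.log (B ^ 2 + δ ^ 2) ≤ L :=
      Real.log_le_log (by positivity) (by nlinarith)
    push_cast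
    linarith
  -- the grid
  have hs01 : ∀ i : Fin n, (((i : ℕ) : ℝ) + 1) / n ∈ Icc (0 : ℝ) 1 := by
    intro i
    refine ⟨by positivity, ?_⟩
    rw [div_le_one hn0]
    exact_mod_cast i.2
  have hyB : ∀ i, y i ∈ Icc 0 B := fun i => hqB _ (hs01 i)
  have hgap' : ∀ i j : Fin n, i < j → y i + α / n ≤ y j := by
    intro i j hij
    have h1 : ((i : ℕ) : ℝ) + 1 ≤ (j : ℕ) := by exact_mod_cast hij
    have h2 := hq ((((i : ℕ) : ℝ) + 1) / n) ((((j : ℕ) : ℝ) + 1) / n)
      (div_le_div_of_nonneg_right (by linarith) hn0.le)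
    have h3 : α / n ≤ α * ((((j : ℕ) : ℝ) + 1) / n - (((i : ℕ) : ℝ) + 1) / n) := by
      rw [← sub_div, ← mul_div_assoc]
      refine div_le_div_of_nonneg_right ?_ hn0.le
      nlinarith
    simp only [hy]
    linarith
  have hαn : 0 < α / n := by positivity
  have hgap : ∀ i j : Fin n, i ≠ j → α / n ≤ |y i - y j| := by
    intro i j hij
    rcases lt_or_gt_of_ne hij with h | h
    · have := hgap' i j h
      rw [abs_sub_comm]
      exact le_trans (by linarith) (le_abs_self _)
    · have := hgap' j i h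
      exact le_trans (by linarith) (le_abs_self _)
  have hyinj : Function.Injective y := by
    intro i j hij
    by_contra hne
    have := hgap i j hne
    rw [hij, sub_self, abs_zero] at this
    linarith
  obtain ⟨c, hc⟩ := interp y hyinj fun j => (φ j : ℝ)
  simp only [eB_apply y _ c hc] at hcon
  -- measure facts
  have hP : IsProbabilityMeasure (volume.restrict (Ioc (0 : ℝ) 1)) := ⟨by simp⟩
  set μ : Measure ℝ := Measure.map q (volume.restrict (Ioc (0 : ℝ) 1)) with hμ
  have hPμ : IsProbabilityMeasure μ := Measure.isProbabilityMeasure_map hmeas.aemeasurable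
  have hae : ∀ᵐ t ∂(volume.restrict (Ioc (0 : ℝ) 1)), q t ∈ Icc 0 B :=
    (ae_restrict_mem measurableSet_Ioc).mono fun t ht => hqB t (Ioc_subset_Icc_self ht)
  have hsupp : Supp μ B := by
    exact (ae_map_iff (p := fun x => x ∈ Icc 0 B) hmeas.aemeasurable measurableSet_Icc).2 hae
  have hUμ : ∀ x : ℝ, ∫ t, S δ (t - x) ∂μ = U x := by
    intro x
    rw [hμ, integral_map hmeas.aemeasurable]
    exact ((continuous_S hδ0).comp (continuous_id.sub continuous_const)).aestronglyMeasurable
  have hUle : ∀ x ∈ Icc 0 B, U x ≤ L / 2 := by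
    intro x hx
    rw [← hUμ x]
    have h1 : ∫ t, S δ (t - x) ∂μ ≤ ∫ _t, L / 2 ∂μ := by
      have hb : ∀ᵐ t ∂μ, S δ (t - x) ≤ L / 2 := by
        filter_upwards [hsupp] with t ht
        refine S_le hδ0 hδ1 (abs_le.2 ⟨?_, ?_⟩) <;> linarith [ht.1, ht.2, hx.1, hx.2]
      refine integral_mono_ae ?_ (integrable_const _) hb
      have hcont : Continuous fun t => S δ (t - x) :=
        (continuous_S hδ0).comp (continuous_id.sub continuous_const)
      obtain ⟨M, hM⟩ := (isCompact_Icc (a := (0 : ℝ)) (b := B)).exists_bound_of_continuousOn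
        hcont.continuousOn
      refine Integrable.of_bound hcont.aestronglyMeasurable M ?_
      filter_upwards [hsupp] with t ht using hM t ht
    simpa using h1
  -- Hankel determinant
  set φ' : ℕ → ℤ := fun m => if h : m < n then φ ⟨m, h⟩ else 0 with hφ'
  obtain ⟨k, d, Q, hk, hkd, hQ, hdet⟩ := hH n φ' (by
    obtain ⟨j, hj⟩ := Function.ne_iff.1 hφ
    exact ⟨j, j.2, by simpa [hφ'] using hj⟩)
  have hQc : Continuous fun x : ℝ => aeval x Q := Q.continuous_aeval
  obtain ⟨M, hM⟩ := (isCompact_Icc (a := (0 : ℝ)) (b := B)).exists_bound_of_continuousOn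
    hQc.continuousOn
  obtain ⟨t1, t2, t3⟩ := hT ℝ (volume.restrict (Ioc (0 : ℝ) 1)) (fun t => aeval (q t) Q) M 0
    (hQc.measurable.comp hmeas) (hae.mono fun t ht => hM _ ht) (fun ε hε _ => by
      have := hA Q hQ ε hε
      rw [integral_map hmeas.aemeasurable] at this
      · exact this
      · exact ((continuous_S hε).comp hQc).aestronglyMeasurable)
  obtain ⟨s, hs, hs1⟩ := exists_cells (fun t => aeval (q t) Q) d t1 t2 t3
  set g : Fin d → ℝ := fun j => q (s j) with hg
  set G : ℝ[X] := ∏ l, (X - C (g l)) with hG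
  have hGdeg : G.natDegree = d := by
    rw [hG, natDegree_prod_of_monic _ _ fun i _ => monic_X_sub_C _]
    simp
  have hGm : G.Monic := monic_prod_of_monic _ _ fun i _ => monic_X_sub_C _
  have hent : ∀ i j : Fin k, ∑ m ∈ Finset.range n,
      (X ^ ((i : ℕ) + j) * G : ℝ[X]).coeff m * (φ' m : ℝ) =
      ∑ l, y l ^ (i : ℕ) * (y l ^ (j : ℕ) * (c l * G.eval (y l))) := by
    intro i j
    have hdeg : (X ^ ((i : ℕ) + j) * G : ℝ[X]).natDegree < n := by
      rw [(monic_X_pow _).natDegree_mul hGm, natDegree_X_pow, hGdeg]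
      have := i.2
      have := j.2
      omega
    have h1 := hc _ hdeg
    rw [Finset.sum_range]
    have h2 : ∀ m : Fin n, (φ' m : ℝ) = φ m := by
      intro m
      simp [hφ']
    simp only [h2]
    rw [h1]
    refine Finset.sum_congr rfl fun l _ => ?_
    rw [eval_mul, eval_pow, eval_X, pow_add]
    ring
  have hdet1 := le_trans hs1 (hdet g)
  simp only [← hG, hent] at hdet1
  obtain ⟨f, hf⟩ := exists_term y (fun l => c l * G.eval (y l)) hn hdet1
  set x : Fin k → ℝ := y ∘ f with hx
  have hne : (n : ℝ) ^ k * ((Matrix.vandermonde x).det ^ 2 *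
      ∏ j, |c (f j) * G.eval (y (f j))|) ≠ 0 := by
    intro h
    rw [h] at hf
    linarith
  have hv0 : (Matrix.vandermonde x).det ≠ 0 := by
    intro h
    apply hne
    rw [h]
    simp
  have hp0 : ∀ j, |c (f j) * G.eval (y (f j))| ≠ 0 := by
    intro j h
    apply hne
    rw [Finset.prod_eq_zero (Finset.mem_univ j) h]
    simp
  have hlog : 0 ≤ k * Real.log n + (2 * Real.log |(Matrix.vandermonde x).det| +
      ∑ j, Real.log |c (f j) * G.eval (y (f j))|) := by
    have := Real.log_nonneg hf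
    rw [Real.log_mul (by positivity) (right_ne_zero_of_mul hne), Real.log_pow,
      Real.log_mul (by positivity) (Finset.prod_ne_zero_iff.2 fun j _ => hp0 j), Real.log_pow,
      Real.log_prod fun j _ => hp0 j] at this
    rw [Real.log_abs]
    push_cast at this
    exact this
  -- the coefficient bound
  have hcb : ∀ l, c l ≠ 0 → Real.log |c l| ≤
      -C₀ - 1 - 12 * Real.log n - n * U (y l) + V + 1 / α ^ 2 := by
    intro l hl
    have hne' : ∀ i ∈ Finset.univ.erase l, |y l - y i| ≠ 0 := fun i hi =>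
      (lt_of_lt_of_le hαn (hgap l i (Finset.ne_of_mem_erase hi).symm)).ne'
    have h1 := hcon l
    have h2 : 0 < |c l * ∏ i ∈ Finset.univ.erase l, (y l - y i)| := by
      rw [abs_mul, Finset.abs_prod]
      exact mul_pos (abs_pos.2 hl) (Finset.prod_pos fun i hi =>
        lt_of_le_of_ne (abs_nonneg _) (hne' i hi).symm)
    have h3 := Real.log_le_log h2 h1.le
    rw [abs_mul, Finset.abs_prod, Real.log_mul (abs_ne_zero.2 hl)
      (Finset.prod_ne_zero_iff.2 hne'), Real.log_prod hne',
      Real.log_div (Real.exp_pos _).ne' (by positivity), Real.log_exp, Real.log_pow] at h3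
    have h4 := hR q B δ (y l) n (fun j => (((j : ℕ) : ℝ) + 1) / n) hmono hδ0 (hyB l) hqB
      (fun j => ⟨div_le_div_of_nonneg_right (by linarith) hn0.le, le_rfl⟩)
    have h5 := (abs_le.1 h4).1
    have h6 : ∑ j : Fin n, S δ (y j - y l) ≤
        ∑ i ∈ Finset.univ.erase l, Real.log |y l - y i| + 1 / α ^ 2 := by
      rw [← Finset.add_sum_erase _ _ (Finset.mem_univ l), sub_self, S_zero]
      have h7 : ∑ i ∈ Finset.univ.erase l, S δ (y i - y l) ≤
          ∑ i ∈ Finset.univ.erase l, (Real.log |y l - y i| + δ ^ 2 / (α / n) ^ 2 / 2) := by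
        refine Finset.sum_le_sum fun i hi => ?_
        rw [abs_sub_comm]
        exact S_le_log hαn (hgap i l (Finset.ne_of_mem_erase hi))
      rw [Finset.sum_add_distrib, Finset.sum_const, nsmul_eq_mul] at h7
      have h8 : ((Finset.univ.erase l).card : ℝ) ≤ n := by
        have := Finset.card_le_univ (Finset.univ.erase l)
        rw [Fintype.card_fin] at this
        exact_mod_cast this
      have h9 : (n : ℝ) * (δ ^ 2 / (α / n) ^ 2 / 2) ≤ 1 / α ^ 2 := by
        have e : (n : ℝ) * (δ ^ 2 / (α / n) ^ 2 / 2) = 1 / α ^ 2 * (1 / (2 * n)) := by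
          rw [hδ]
          field_simp
        rw [e]
        refine mul_le_of_le_one_right (by positivity) ?_
        rw [div_le_one (by positivity)]
        linarith
      have h10 : ((Finset.univ.erase l).card : ℝ) * (δ ^ 2 / (α / n) ^ 2 / 2) ≤
          n * (δ ^ 2 / (α / n) ^ 2 / 2) := mul_le_mul_of_nonneg_right h8 (by positivity)
      linarith
    change -V ≤ ∑ j : Fin n, S δ (y j - y l) - n * U (y l) at h5
    push_cast at h3
    linarith
  have hGb : ∀ l, G.eval (y l) ≠ 0 → Real.log |G.eval (y l)| ≤ d * U (y l) + V := by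
    intro l hl
    have e : G.eval (y l) = ∏ j, (y l - g j) := by simp [hG, eval_prod]
    rw [e] at hl ⊢
    have hne' : ∀ j ∈ Finset.univ, y l - g j ≠ 0 := Finset.prod_ne_zero_iff.1 hl
    rw [Finset.abs_prod, Real.log_prod fun j hj => abs_ne_zero.2 (hne' j hj)]
    have h4 := hR q B δ (y l) d s hmono hδ0 (hyB l) hqB hs
    have h5 := (abs_le.1 h4).2
    change ∑ j : Fin d, S δ (g j - y l) - d * U (y l) ≤ V at h5
    have h6 : ∑ j : Fin d, Real.log |y l - g j| ≤ ∑ j : Fin d, S δ (g j - y l) := by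
      refine Finset.sum_le_sum fun j hj => ?_
      rw [← S_neg, neg_sub]
      exact log_le_S (hne' j hj)
    linarith
  have hterm : ∑ j, Real.log |c (f j) * G.eval (y (f j))| ≤
      k * (-C₀ - 1 - 12 * Real.log n + 2 * V + 1 / α ^ 2) + ((d : ℝ) - n) * ∑ j, U (x j) := by
    have h1 : ∑ j, Real.log |c (f j) * G.eval (y (f j))| ≤
        ∑ j : Fin k, ((-C₀ - 1 - 12 * Real.log n + 2 * V + 1 / α ^ 2) + ((d : ℝ) - n) * U (x j)) := by
      refine Finset.sum_le_sum fun j _ => ?_
      have h0 := abs_ne_zero.1 (hp0 j)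
      have h2 := hcb _ (left_ne_zero_of_mul h0)
      have h3 := hGb _ (right_ne_zero_of_mul h0)
      rw [abs_mul, Real.log_mul (abs_ne_zero.2 (left_ne_zero_of_mul h0))
        (abs_ne_zero.2 (right_ne_zero_of_mul h0))]
      simp only [hx, Function.comp]
      linarith
    rw [Finset.sum_add_distrib, Finset.sum_const, Finset.card_univ, Fintype.card_fin,
      nsmul_eq_mul, ← Finset.mul_sum] at h1
    exact h1
  have hvand := hV k x δ hδ0 hv0
  have hkey := hK μ B hsupp (Fin k) Finset.univ (fun _ => 1) (fun i => (x i : ℂ)) δ δ 1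
    (fun _ _ => zero_le_one) hδ0 le_rfl one_pos le_rfl
  simp only [K_real, hUμ, Finset.sum_const, Finset.card_univ, Fintype.card_fin, nsmul_eq_mul,
    mul_one, one_mul, sub_self, zero_div, sub_zero, zero_mul, add_zero] at hkey
  have hen := hS μ B (by linarith) hsupp hA δ hδ0
  have hUs : ∑ j, U (x j) ≤ k * (L / 2) := by
    have := Finset.sum_le_sum (s := Finset.univ) fun j _ => hUle (x j) (hyB (f j))
    simpa using this
  have hkdR : 2 * (k : ℝ) + d = n + 1 := by exact_mod_cast hkd
  have hkR : (1 : ℝ) ≤ k := by exact_mod_cast hk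
  have hen2 : 0 ≤ (k : ℝ) ^ 2 * En δ μ μ := by positivity
  have e1 : ((d : ℝ) - n) = 1 - 2 * k := by linarith
  rw [e1] at hterm
  rw [hlogδ] at hvand
  have hfin : 0 ≤ k * (-1 - Real.log n) := by
    have hV2 : (k : ℝ) * V ≤ k * (L + 4 * Real.log n) :=
      mul_le_mul_of_nonneg_left hVle (by linarith)
    rw [hC₀] at hterm
    nlinarith
  nlinarith

end Pool.Agent.H826Z.SSS
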